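import Pool.Agent.H71.CR.Stmt

/-! The composition lemma for replaced structures (MP_5607ba_lc, row COM). -/

set_option autoImplicit false

open Set Pool.Agent.TK Pool.Agent.H71.VK

namespace Pool.Agent.CR

section h19

variable {C ι : Type} {c0 : C} {n : Bd} {b : Rk} {M : St (C × ℕ)} {B : ι → Set ℕ}
  {z : ι → List ℕ} {R : ι → St (C × ℕ)}

private lemma h19_uniq (hA : RA c0 n b M B z R) {i j : ι} {x : ℕ} (hi : x ∈ B i)
    (hj : x ∈ B j) : i = j := by
  by_contra h
  exact Set.disjoint_left.1 (hA.disj i j h) hi hj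

private lemma h19_zip : ∀ (s q : List (ℕ × ℕ)), s.map Prod.snd = q.map Prod.fst →
    ((s.map Prod.fst).zip (q.map Prod.snd)).map Prod.fst = s.map Prod.fst ∧
    ((s.map Prod.fst).zip (q.map Prod.snd)).map Prod.snd = q.map Prod.snd ∧
    ∀ r ∈ (s.map Prod.fst).zip (q.map Prod.snd), ∃ x, (r.1, x) ∈ s ∧ (x, r.2) ∈ q
  | [], [], _ => by simp
  | [], _ :: _, h => by simp at h
  | _ :: _, [], h => by simp at h
  | a :: s, c :: q, h => by
    rw [List.map_cons, List.map_cons, List.cons.injEq] at h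
    obtain ⟨h1, h2, h3⟩ := h19_zip s q h.2
    refine ⟨?_, ?_, ?_⟩
    · rw [List.map_cons, List.map_cons, List.zip_cons_cons, List.map_cons, h1]
    · rw [List.map_cons, List.map_cons, List.zip_cons_cons, List.map_cons, h2]
    · intro r hr
      rw [List.map_cons, List.map_cons, List.zip_cons_cons, List.mem_cons] at hr
      rcases hr with rfl | hr
      · refine ⟨a.2, List.mem_cons_self, ?_⟩
        rw [h.1]
        exact List.mem_cons_self
      · obtain ⟨x, hx, hx'⟩ := h3 r hr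
        exact ⟨x, List.mem_cons_of_mem _ hx, List.mem_cons_of_mem _ hx'⟩

private lemma h19_PI {D : Type} {N N' : St D} {p q : List (ℕ × ℕ)} (h : PI N N' p)
    (hq : ∀ z ∈ q, z ∈ p) : PI N N' q :=
  ⟨fun z hz w hw => h.1 z (hq z hz) w (hq w hw), fun z hz w hw => h.2.1 z (hq z hz) w (hq w hw),
    fun s hs => h.2.2 s fun z hz => hq z (hs z hz)⟩

open Classical in
private lemma h19_claim (hA : RA c0 n b M B z R) {T T' : Set ι} (hT : T' ⊆ T)
    {p : List (ℕ × ℕ)} (hP : Ps M B z R (T \ T') Rk.zero p) {q' q : List (ℕ × ℕ)}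
    (hQ : Ps M B z R T' Rk.zero q')
    (hq : ∀ r ∈ q, ∃ x, (r.1, x) ∈ p ∧ (x, r.2) ∈ q') : Ps M B z R T Rk.zero q := by
  -- a point in a block of `T'` is in no block of `T \ T'`
  have out1 : ∀ i ∈ T', ∀ x ∈ B i, ∀ j ∈ T \ T', x ∉ B j := by
    intro i hi x hx j hj hjb
    rw [h19_uniq hA hjb hx] at hj
    exact hj.2 hi
  have out2 : ∀ i ∈ T \ T', ∀ x ∈ B i, ∀ j ∈ T', x ∉ B j := by
    intro i hi x hx j hj hjb
    rw [h19_uniq hA hjb hx] at hj
    exact hi.2 hj
  refine ⟨?_, ?_, ?_⟩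
  · intro r hr h
    obtain ⟨x, h1, h2⟩ := hq r hr
    have e1 : r.1 = x := hP.1 _ h1 fun i hi => h i hi.1
    have e2 : x = r.2 := hQ.1 _ h2 fun i hi => e1 ▸ h i (hT hi)
    exact e1.trans e2
  · intro r hr i hi
    obtain ⟨x, h1, h2⟩ := hq r hr
    by_cases hi' : i ∈ T'
    · have h3 : x ∈ B i ↔ r.2 ∈ B i := hQ.2.1 _ h2 i hi'
      rw [← h3]
      constructor
      · intro h
        have e1 : r.1 = x := hP.1 _ h1 fun j hj => out1 i hi' _ h j hj
        rw [← e1]
        exact h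
      · intro h
        have e1 : r.1 = x := hP.1 _ h1 fun j hj hjb =>
          out1 i hi' x h j hj ((hP.2.1 _ h1 j hj).1 hjb)
        rw [e1]
        exact h
    · have h3 : r.1 ∈ B i ↔ x ∈ B i := hP.2.1 _ h1 i ⟨hi, hi'⟩
      rw [h3]
      constructor
      · intro h
        have e1 : x = r.2 := hQ.1 _ h2 fun j hj => out2 i ⟨hi, hi'⟩ _ h j hj
        rw [← e1]
        exact h
      · intro h
        have e1 : x = r.2 := hQ.1 _ h2 fun j hj hjb =>
          out2 i ⟨hi, hi'⟩ _ h j hj ((hQ.2.1 _ h2 j hj).1 hjb)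
        rw [e1]
        exact h
  · intro i hi
    by_cases hi' : i ∈ T'
    · refine h19_PI (hQ.2.2 i hi') fun w hw => ?_
      rcases List.mem_append.1 hw with hw | hw
      · exact List.mem_append_left _ hw
      · have h1 := List.mem_filter.1 hw
        have h2 : w.1 ∈ B i := of_decide_eq_true h1.2
        obtain ⟨x, h3, h4⟩ := hq w h1.1
        have e1 : w.1 = x := hP.1 _ h3 fun j hj => out1 i hi' _ h2 j hj
        have e2 : w = (x, w.2) := Prod.ext e1 rfl
        refine List.mem_append_right _ (List.mem_filter.2 ⟨e2 ▸ h4, h1.2⟩)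
    · refine h19_PI (hP.2.2 i ⟨hi, hi'⟩) fun w hw => ?_
      rcases List.mem_append.1 hw with hw | hw
      · exact List.mem_append_left _ hw
      · have h1 := List.mem_filter.1 hw
        have h2 : w.1 ∈ B i := of_decide_eq_true h1.2
        obtain ⟨x, h3, h4⟩ := hq w h1.1
        have h5 : x ∈ B i := (hP.2.1 _ h3 i ⟨hi, hi'⟩).1 h2
        have e1 : x = w.2 := hQ.1 _ h4 fun j hj => out2 i ⟨hi, hi'⟩ _ h5 j hj
        have e2 : w = (w.1, x) := Prod.ext rfl e1.symm
        refine List.mem_append_right _ (List.mem_filter.2 ⟨e2 ▸ h3, h1.2⟩)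

open Classical in
private lemma h19_zero (hRPX : T_RPX C) (hRPL : T_RPL C) (hA : RA c0 n b M B z R)
    {T T' : Set ι} (hT : T' ⊆ T) {p : List (ℕ × ℕ)} (hP : Ps M B z R (T \ T') Rk.zero p) :
    PI (rp M B z R T) (rp M B z R T') p := by
  have hpat : ∀ q ∈ p, ∀ q' ∈ p, (q.1 = q'.1 ↔ q.2 = q'.2) := by
    intro q hq q' hq'
    by_cases h1 : ∃ i ∈ T \ T', q.1 ∈ B i
    · obtain ⟨i, hi, hb⟩ := h1
      by_cases h2 : q'.1 ∈ B i
      · exact (hP.2.2 i hi).1 q (List.mem_append_right _ (List.mem_filter.2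
          ⟨hq, decide_eq_true hb⟩)) q' (List.mem_append_right _ (List.mem_filter.2
          ⟨hq', decide_eq_true h2⟩))
      · have h3 : q.2 ∈ B i := (hP.2.1 q hq i hi).1 hb
        have h4 : q'.2 ∉ B i := fun h => h2 ((hP.2.1 q' hq' i hi).2 h)
        exact ⟨fun h => absurd (h ▸ hb) h2, fun h => absurd (h ▸ h3) h4⟩
    · push Not at h1
      have he : q.1 = q.2 := hP.1 q hq h1
      by_cases h2 : ∃ i ∈ T \ T', q'.1 ∈ B i
      · obtain ⟨i, hi, hb⟩ := h2
        have h3 : q'.2 ∈ B i := (hP.2.1 q' hq' i hi).1 hb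
        have h4 := h1 i hi
        refine ⟨fun h => absurd (h ▸ hb) h4, fun h => ?_⟩
        rw [← h, ← he] at h3
        exact absurd h3 h4
      · push Not at h2
        have he' : q'.1 = q'.2 := hP.1 q' hq' h2
        rw [← he, ← he']
  refine ⟨hpat, ?_, ?_⟩
  · intro q hq q' hq'
    change M.1 q.1 q'.1 = M.1 q.2 q'.2
    rw [hA.val.1, hA.val.1]
    have h := hpat q hq q' hq'
    exact decide_eq_decide.2 (not_congr h)
  · intro s hs
    obtain ⟨q', h1, h2⟩ := hRPX ι c0 n b M B z R hA T' (s.map Prod.snd)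
    obtain ⟨h3, h4, h5⟩ := h19_zip s q' h1.symm
    have h6 : Ps M B z R T Rk.zero ((s.map Prod.fst).zip (q'.map Prod.snd)) := by
      refine h19_claim hA hT hP h2 fun r hr => ?_
      obtain ⟨x, hx, hx'⟩ := h5 r hr
      exact ⟨x, hs _ hx, hx'⟩
    have e1 := hRPL ι c0 n b M B z R hA T _ h6
    have e2 := hRPL ι c0 n b M B z R hA T' _ h2
    rw [h3, h4] at e1
    rw [h1] at e2
    rw [e1, e2]

end h19

theorem pf_COM {C : Type} (hPSE : T_PSE C) (hRPX : T_RPX C) (hRPL : T_RPL C) : T_COM C := by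
  intro ι c0 n b M B z R hA T T' hT r
  obtain ⟨-, e2, -, -, e5⟩ := hPSE ι c0 n b M B z R hA (T \ T')
  induction r with
  | zero => intro p hp; exact h19_zero hRPX hRPL hA hT hp
  | sup f ih =>
    intro p hp m
    refine ⟨ih m p (e2 (f m) (Rk.sup f) p (RLe.sup f m) hp), ?_, ?_⟩
    · intro a _
      obtain ⟨a', h⟩ := (e5 f p hp m).1 a
      exact ⟨a', mem_univ _, ih m _ h⟩
    · intro a' _
      obtain ⟨a, h⟩ := (e5 f p hp m).2 a'
      exact ⟨a, mem_univ _, ih m _ h⟩

end Pool.Agent.CR
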