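import Pool.Agent.H71.CR.Stmt

/-!
# No good piece has finitely many germs (MP_5607ba_lc, row CON)
-/

set_option autoImplicit false

open Set Pool.Agent.TK Pool.Agent.H71.VK

namespace Pool.Agent.CR

theorem pf_CON (hSAT : T_SAT) (hSTX : T_STX) (hFNL : T_FNL) : T_CON := by
  intro n c Sm G π hv hN E hE h
  obtain ⟨B, hB⟩ := hSAT n c Sm G π hv hN E hE h
  obtain ⟨S, L, F, hS⟩ := hSTX n c Sm G π B hB
  exact hFNL n c Sm G π B S L F hS

end Pool.Agent.CR
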