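import Pool.Agent.H71.CR.Stmt

/-!
# The points of an edge have the same support (MP_5607ba_lc, row ESU)
-/

set_option autoImplicit false

open Set Pool.Agent.TK Pool.Agent.H71.VK

namespace Pool.Agent.CR

private lemma h19_zip_self {x : List ℕ} {z : ℕ × ℕ} (h : z ∈ x.zip x) : z.1 = z.2 := by
  induction x with
  | nil => simp at h
  | cons a x ih =>
    rw [List.zip_cons_cons, List.mem_cons] at h
    rcases h with h | h
    · rw [h]
    · exact ih h

theorem pf_ESU (hTIA : T_TIA) : T_ESU := by
  intro n c Sm G π B hB e he a hae
  apply Finset.Subset.antisymm
  · refine G.mono _ _ fun x hx => ?_
    rcases List.mem_cons.1 hx with rfl | hx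
    · exact List.mem_append_left _ hae
    · exact List.mem_append_right _ hx
  · have key : ∀ (m : ℕ) (q : ℕ → Bool), q a = true →
        G.sup (e.filter q ++ B) ⊆ G.sup (a :: B) →
        (e.filter (fun x => !q x)).length = m → G.sup (e ++ B) ⊆ G.sup (a :: B) := by
      intro m
      induction m using Nat.strong_induction_on with
      | _ m ih =>
        intro q hqa hq hm
        by_cases h0 : e.filter (fun x => !q x) = []
        · refine Finset.Subset.trans (G.mono _ _ fun x hx => ?_) hq
          rcases List.mem_append.1 hx with hx | hx
          · refine List.mem_append_left _ (List.mem_filter.2 ⟨hx, ?_⟩)
            by_contra h1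
            have h2 : x ∈ e.filter (fun x => !q x) := List.mem_filter.2 ⟨hx, by simpa using h1⟩
            rw [h0] at h2
            simp at h2
          · exact List.mem_append_right _ hx
        · by_cases h1 : ∃ b ∈ e.filter (fun x => !q x),
              G.sup (b :: (e.filter q ++ B)) ⊆ G.sup (e.filter q ++ B)
          · obtain ⟨b, hb, hb'⟩ := h1
            have hb2 := List.mem_filter.1 hb
            refine ih _ ?_ (fun x => q x || decide (x = b)) ?_ ?_ rfl
            · rw [← hm]
              have h3 : e.filter (fun x => !(q x || decide (x = b))) =
                  (e.filter (fun x => !q x)).filter (fun x => !decide (x = b)) := by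
                rw [List.filter_filter]
                apply List.filter_congr
                intro x _
                cases q x <;> simp
              rw [h3]
              refine lt_of_le_of_ne (List.length_filter_le _ _) fun h4 => ?_
              have h5 := List.length_filter_eq_length_iff.1 h4 b hb
              simp at h5
            · simp [hqa]
            · refine Finset.Subset.trans (G.mono _ _ fun x hx => ?_)
                (Finset.Subset.trans hb' hq)
              rcases List.mem_append.1 hx with hx | hx
              · have h3 := List.mem_filter.1 hx
                rw [Bool.or_eq_true] at h3
                rcases h3.2 with h4 | h4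
                · exact List.mem_cons_of_mem _ (List.mem_append_left _
                    (List.mem_filter.2 ⟨h3.1, h4⟩))
                · rw [of_decide_eq_true h4]
                  exact List.mem_cons_self
              · exact List.mem_cons_of_mem _ (List.mem_append_right _ hx)
          · push Not at h1
            exfalso
            have hMb : G.Mb π (e.filter q ++ B) (e.filter (fun x => !q x)) := fun b hb =>
              ⟨(he.mb b (List.mem_of_mem_filter hb)).1, h1 b hb⟩
            have hTI := hTIA n c Sm G π B hB (e.filter q) (e.filter (fun x => !q x)) (by
              have h3 : (e.filter q).length + (e.filter (fun x => !q x)).length = e.length := by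
                rw [← List.countP_eq_length_filter, ← List.countP_eq_length_filter]
                have h5 := (List.length_eq_countP_add_countP (l := e) q).symm
                rw [← h5]
                congr 1
                apply List.countP_congr
                intro x _
                cases q x <;> simp
              rw [h3]
              exact he.ln) ⟨B, fun x hx => hx, fun b hb => he.mb b (List.mem_of_mem_filter hb)⟩
              ⟨_, hMb, rfl, pl_diag fun z hz => by
                rcases List.mem_append.1 hz with h4 | h4
                · exact (mem_dg.1 h4).1
                · exact h19_zip_self h4⟩
            refine he.idc (e.filter q) (e.filter (fun x => !q x)) ?_ h0 ?_ ?_ hTI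
            · intro h3
              have h4 : a ∈ e.filter q := List.mem_filter.2 ⟨hae, hqa⟩
              rw [h3] at h4
              simp at h4
            · intro x hx hx'
              have h3 := (List.mem_filter.1 hx).2
              have h4 := (List.mem_filter.1 hx').2
              rw [h3] at h4
              simp at h4
            · intro x
              constructor
              · intro hx
                by_cases h3 : q x = true
                · exact Or.inl (List.mem_filter.2 ⟨hx, h3⟩)
                · exact Or.inr (List.mem_filter.2 ⟨hx, by simpa using h3⟩)
              · rintro (hx | hx)
                · exact List.mem_of_mem_filter hx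
                · exact List.mem_of_mem_filter hx
    refine key _ (fun x => decide (x = a)) (by simp) (G.mono _ _ fun x hx => ?_) rfl
    rcases List.mem_append.1 hx with hx | hx
    · have h3 := (List.mem_filter.1 hx).2
      rw [of_decide_eq_true h3]
      exact List.mem_cons_self
    · exact List.mem_cons_of_mem _ hx

end Pool.Agent.CR
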