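import Pool.Agent.H71.CR.Stmt2

/-! Structures of width at most `k` have a bounded number of germs (MP_5607ba_lc, row WAM). -/

set_option autoImplicit false

open Set Pool.Agent.TK Pool.Agent.H71.VK

namespace Pool.Agent.CR

theorem pf_WAM (hW4 : W4) (hW5 : W5) : T_WAM := by
  classical
  intro n k
  obtain ⟨m, hm⟩ := hW5 n (k + 1)
  refine ⟨m, fun c hc hw U hU f hf1 hf2 => ?_⟩
  obtain ⟨N, N', h1, h2, h3, h4, h5, h6⟩ := hW4 n c k hc hw U hU
    ((Finset.univ : Finset (Fin (m + 1))).biUnion fun i => (f i).toFinset)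
  have hY : ∀ i, ∀ a ∈ f i, a ∈ N' ∨ a ∉ N := fun i a ha =>
    h6 a (Finset.mem_biUnion.2 ⟨i, Finset.mem_univ i, List.mem_toFinset.2 ha⟩)
  obtain ⟨f', hf'⟩ := hm c hc N N' h3 h4 h5
  obtain ⟨i, j, hij, he⟩ := Fintype.exists_ne_map_eq_of_card_lt (fun i => f' (f i)) (by
    rw [Fintype.card_fin, Fintype.card_fin]
    exact Nat.lt_succ_self m)
  refine ⟨i, j, hij, N \ N', ?_, hf' (f i) (f j) (hf1 i) (hf2 i j) (hY i) (hY j) he⟩
  rw [Set.sdiff_eq]
  exact hU.int N h1 _ h2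

end Pool.Agent.CR
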