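import Pool.Agent.H71.CR.Stmt2

/-! Few classes are finitely many classes (MP_5607ba_lc, row WFX). -/

set_option autoImplicit false

open Set Pool.Agent.TK Pool.Agent.H71.VK

namespace Pool.Agent.CR

theorem pf_WFX : T_WFX := by
  classical
  intro n c k Y A h
  obtain ⟨f, hf⟩ := h
  let g : Fin (n.2 + 1) × Fin k → List ℕ := fun q =>
    if h : ∃ x : List ℕ, x.length = q.1 ∧ (∀ a ∈ x, a ∈ A) ∧ f x = q.2 then h.choose else []
  have hg : ∀ q, ∀ a ∈ g q, a ∈ A := by
    intro q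
    by_cases h : ∃ x : List ℕ, x.length = q.1 ∧ (∀ a ∈ x, a ∈ A) ∧ f x = q.2
    · have e : g q = h.choose := dif_pos h
      rw [e]
      exact h.choose_spec.2.1
    · have e : g q = [] := dif_neg h
      rw [e]
      intro a ha
      simp at ha
  refine ⟨(Finset.univ : Finset (Fin (n.2 + 1) × Fin k)).toList.map g, ?_, ?_⟩
  · intro e he
    obtain ⟨q, -, rfl⟩ := List.mem_map.1 he
    exact hg q
  · intro x hx hxA
    let q : Fin (n.2 + 1) × Fin k := (⟨x.length, Nat.lt_succ_of_le hx⟩, f x)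
    have h : ∃ x' : List ℕ, x'.length = q.1 ∧ (∀ a ∈ x', a ∈ A) ∧ f x' = q.2 :=
      ⟨x, rfl, hxA, rfl⟩
    have e : g q = h.choose := dif_pos h
    refine ⟨g q, List.mem_map.2 ⟨q, Finset.mem_toList.2 (Finset.mem_univ q), rfl⟩, ?_⟩
    rw [e]
    obtain ⟨h1, h2, h3⟩ := h.choose_spec
    exact hf x h.choose hx h1.symm hxA h2 h3.symm

end Pool.Agent.CR
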